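import Pool.Agent.H.MP_1304b2_co.B

namespace Pool.Agent.Results.MP_1304b2_co.Formula

open Pool.Agent.H.MP_1304b2_co

theorem result {V : Type} [Fintype V] [DecidableEq V] (G : SimpleGraph V) (hG : G.IsTree) (c : V → Bool) (m : ℤ) :
    HasValue G c Finset.univ m ↔
      m = (((Ess G c Finset.univ).filter fun u => c u = true).card : ℤ) -
        ((Ess G c Finset.univ).filter fun u => c u = false).card :=
  main hG m

end Pool.Agent.Results.MP_1304b2_co.Formula
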